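import Mathlib
import Pool.Agent.helper35.DR.SpecA

/-!
# Project dr (MP_baa4d7_al), module GCC: the complements of a central minimal normal subgroup
-/

set_option autoImplicit false

namespace Pool.Agent.DR

open Pool.Agent.helper58.DC Pool.Agent.DI

theorem GCC_prime {A : Type} [Group A] [Finite A] (N : Subgroup A) (hN : MinAb N)
    (hc : ∀ a : A, ∀ x ∈ N, a * x = x * a) : (Nat.card N).Prime := by
  have h1 : Nat.card N ≠ 1 := fun h => hN.ne (Subgroup.card_eq_one.1 h)
  obtain ⟨r, hr, hrd⟩ := Nat.exists_prime_and_dvd h1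
  haveI := Fact.mk hr
  obtain ⟨x, hx⟩ := exists_prime_orderOf_dvd_card' (G := N) r hrd
  have hox : orderOf (x : A) = r := by rw [Subgroup.orderOf_coe, hx]
  have hle : Subgroup.zpowers (x : A) ≤ N := by
    rw [Subgroup.zpowers_le]
    exact x.2
  have hnor : (Subgroup.zpowers (x : A)).Normal := by
    refine ⟨fun n hn g => ?_⟩
    rw [hc g n (hle hn), mul_inv_cancel_right]
    exact hn
  rcases hN.min _ hnor hle with h | h
  · rw [Subgroup.zpowers_eq_bot] at h
    rw [h, orderOf_one] at hox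
    exact absurd hox.symm hr.ne_one
  · rw [← h, Nat.card_zpowers, hox]
    exact hr

/-- The graph of a homomorphism. -/
def GCC_phi {A : Type} [Group A] (N V : Subgroup A) (hc : ∀ a : A, ∀ x ∈ N, a * x = x * a)
    (f : V →* N) : V →* A where
  toFun v := v * f v
  map_one' := by simp
  map_mul' v w := by
    rw [map_mul, Subgroup.coe_mul, Subgroup.coe_mul, mul_assoc, mul_assoc, ← mul_assoc (w : A),
      hc (w : A) (f v) (f v).2, mul_assoc]

theorem GCC_phi_apply {A : Type} [Group A] (N V : Subgroup A)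
    (hc : ∀ a : A, ∀ x ∈ N, a * x = x * a) (f : V →* N) (v : V) :
    GCC_phi N V hc f v = v * f v := rfl

theorem GCC_dec {A : Type} [Group A] (N V : Subgroup A) (hN : N.Normal) (hV : IsCpl N V) (a : A) :
    ∃ v ∈ V, ∃ n ∈ N, a = v * n := by
  have h : a ∈ V ⊔ N := by rw [hV.2]; exact Subgroup.mem_top a
  obtain ⟨v, hv, n, hn, h2⟩ := Subgroup.mem_sup_of_normal_right.1 h
  exact ⟨v, hv, n, hn, h2.symm⟩

theorem GCC_uniq {A : Type} [Group A] (N V : Subgroup A) (hV : IsCpl N V) {v w n m : A}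
    (hv : v ∈ V) (hw : w ∈ V) (hn : n ∈ N) (hm : m ∈ N) (h : v * n = w * m) : v = w ∧ n = m := by
  have h1 : w⁻¹ * v = m * n⁻¹ := by
    rw [eq_mul_inv_iff_mul_eq, mul_assoc, h, inv_mul_cancel_left]
  have h2 : w⁻¹ * v ∈ V ⊓ N := ⟨V.mul_mem (V.inv_mem hw) hv, by
    rw [h1]; exact N.mul_mem hm (N.inv_mem hn)⟩
  rw [hV.1, Subgroup.mem_bot, inv_mul_eq_one] at h2
  refine ⟨h2.symm, ?_⟩
  rw [h2] at h
  exact mul_left_cancel h

theorem GCC_cpl {A : Type} [Group A] (N V : Subgroup A) (hN : N.Normal) (hV : IsCpl N V)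
    (hc : ∀ a : A, ∀ x ∈ N, a * x = x * a) (f : V →* N) : IsCpl N (GCC_phi N V hc f).range := by
  constructor
  · rw [eq_bot_iff]
    rintro x ⟨⟨v, hv⟩, hx⟩
    rw [GCC_phi_apply] at hv
    have h1 : (v : A) * f v = 1 * x := by rw [hv, one_mul]
    have h2 := GCC_uniq N V hV v.2 V.one_mem (f v).2 hx h1
    have h3 : v = 1 := Subtype.ext h2.1
    rw [Subgroup.mem_bot, ← h2.2, h3, map_one, Subgroup.coe_one]
  · rw [eq_top_iff]
    intro a _
    obtain ⟨v, hv, n, hn, h⟩ := GCC_dec N V hN hV a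
    have h1 : a = GCC_phi N V hc f ⟨v, hv⟩ * ((f ⟨v, hv⟩ : A)⁻¹ * n) := by
      rw [GCC_phi_apply, h]
      group
    rw [h1]
    exact Subgroup.mul_mem_sup ⟨⟨v, hv⟩, rfl⟩ (N.mul_mem (N.inv_mem (f ⟨v, hv⟩).2) hn)

theorem GCC_card {A : Type} [Group A] [Finite A] (N V : Subgroup A) (hN : N.Normal)
    (hV : IsCpl N V) (hc : ∀ a : A, ∀ x ∈ N, a * x = x * a) : ncpl N = Nat.card (V →* N) := by
  symm
  refine Nat.card_congr (Equiv.ofBijective
    (fun f : V →* N => (⟨(GCC_phi N V hc f).range, GCC_cpl N V hN hV hc f⟩ :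
      {V : Subgroup A // IsCpl N V})) ⟨?_, ?_⟩)
  · intro f g hfg
    have h : (GCC_phi N V hc f).range = (GCC_phi N V hc g).range := congrArg Subtype.val hfg
    refine MonoidHom.ext fun v => ?_
    have h1 : GCC_phi N V hc f v ∈ (GCC_phi N V hc g).range := by
      rw [← h]; exact ⟨v, rfl⟩
    obtain ⟨w, hw⟩ := h1
    rw [GCC_phi_apply, GCC_phi_apply] at hw
    have h2 := GCC_uniq N V hV w.2 v.2 (g w).2 (f v).2 hw
    have h3 : w = v := Subtype.ext h2.1
    rw [h3] at h2
    exact (Subtype.ext h2.2).symm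
  · rintro ⟨W, hW⟩
    have hex : ∀ v : V, ∃ n : N, (v : A) * n ∈ W := by
      intro v
      obtain ⟨w, hw, n, hn, h⟩ := GCC_dec N W hN hW v
      refine ⟨⟨n⁻¹, N.inv_mem hn⟩, ?_⟩
      rw [h]
      change w * n * n⁻¹ ∈ W
      rw [mul_inv_cancel_right]
      exact hw
    choose F hF using hex
    have huq : ∀ v : V, ∀ n : A, n ∈ N → (v : A) * n ∈ W → n = F v := by
      intro v n hn h
      have h1 : (v : A) * F v * (F v : A)⁻¹ = v * n * n⁻¹ := by
        rw [mul_inv_cancel_right, mul_inv_cancel_right]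
      have h2 := GCC_uniq N W hW (hF v) h (N.inv_mem (F v).2) (N.inv_mem hn) h1
      exact (mul_left_cancel h2.1).symm
    let f : V →* N :=
      { toFun := F
        map_one' := by
          refine Subtype.ext ?_
          rw [Subgroup.coe_one]
          exact (huq 1 1 N.one_mem (by simp)).symm
        map_mul' := by
          intro v w
          refine Subtype.ext ?_
          rw [Subgroup.coe_mul]
          refine (huq (v * w) _ (N.mul_mem (F v).2 (F w).2) ?_).symm
          have h1 : ((v * w : V) : A) * ((F v : A) * F w) = (v * F v) * (w * F w) := by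
            rw [Subgroup.coe_mul, mul_assoc, mul_assoc, ← mul_assoc (w : A),
              hc (w : A) (F v) (F v).2, mul_assoc]
          rw [h1]
          exact W.mul_mem (hF v) (hF w) }
    refine ⟨f, Subtype.ext ?_⟩
    change (GCC_phi N V hc f).range = W
    apply le_antisymm
    · rintro x ⟨v, rfl⟩
      exact hF v
    · intro w hw
      obtain ⟨v, hv, n, hn, h⟩ := GCC_dec N V hN hV w
      refine ⟨⟨v, hv⟩, ?_⟩
      rw [GCC_phi_apply]
      have h1 := huq ⟨v, hv⟩ n hn (by rw [← h]; exact hw)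
      change v * (F ⟨v, hv⟩ : A) = w
      rw [← h1, h]

theorem GCC : GCC_stmt := by
  intro A _ _ N hN hc
  have hp := GCC_prime N hN hc
  have h3 : ∀ V : Subgroup A, IsCpl N V → ncpl N = Nat.card (V →* N) :=
    fun V hV => GCC_card N V hN.nor hV hc
  refine ⟨hp, ?_, h3⟩
  by_cases hex : ∃ V : Subgroup A, IsCpl N V
  · right
    obtain ⟨V, hV⟩ := hex
    rw [h3 V hV]
    letI : CommGroup N :=
      { (inferInstance : Group N) with
        mul_comm := fun x y => Subtype.ext (hN.comm x x.2 y y.2) }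
    haveI : Fact (Nat.card N).Prime := ⟨hp⟩
    haveI : Finite (V →* N) := Finite.of_injective (fun f : V →* N => (f : V → N))
      DFunLike.coe_injective
    have hP : IsPGroup (Nat.card N) (V →* N) := by
      intro f
      refine ⟨1, ?_⟩
      rw [pow_one]
      refine MonoidHom.ext fun v => ?_
      rw [MonoidHom.pow_apply, MonoidHom.one_apply]
      exact pow_card_eq_one'
    exact IsPGroup.iff_card.1 hP
  · left
    have : IsEmpty {V : Subgroup A // IsCpl N V} := ⟨fun V => hex ⟨V.1, V.2⟩⟩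
    exact Nat.card_of_isEmpty

end Pool.Agent.DR
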